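import Pool.Agent.H912.AE.CycF

/-!
# Points of bounded degree on the pull-backs of a projective variety under power maps

Let `w` be even and `K = ℚ(ζ_w)`.  For a closed set `X ⊂ ℙ^n` over `K`, given by an arbitrary
set `S` of forms, let `X_m = {x ∈ ℙ^n : (x_0^m : ... : x_n^m) ∈ X}`, and let `X^(e)` be the
Zariski closure of the set of the coordinatewise products of `e` points of `X` (its `e`-th
Hadamard power).  We prove that for all `m` outside a set of natural density zero the following
holds for all `e ≤ D` at once: if `X_m` has a point over any extension of `K` of degree `e`, then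
`X^(e)` has a point whose coordinates are zero or `w`-th roots of unity; and the same holds for the
points over all extensions of degree `e` of `ℚ_q`, for as many primes `q` as one likes.
-/

set_option autoImplicit false

open Filter Topology

namespace Pool.Agent.Results.MP_9b9442_nt.BoundedDegree

/-- `x` is a vector of homogeneous coordinates of a point of `X_m` over the field `L`, where
`X ⊂ ℙ^n` is the set of common zeros of the forms in `S`, with coefficients in `K`, where
`X_m = {x : (x_0^m : ... : x_n^m) ∈ X}`, and where `L` is a `K`-algebra by means of `φ`. -/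
def IsPt {K L : Type} [Field K] [Field L] (φ : K →+* L) {n : ℕ}
    (S : Set (MvPolynomial (Fin (n + 1)) K)) (m : ℕ) (x : Fin (n + 1) → L) : Prop :=
  x ≠ 0 ∧ ∀ F ∈ S, MvPolynomial.eval₂ φ (fun i => x i ^ m) F = 0

/-- The forms with coefficients in `K` which vanish at the coordinatewise product of any `e` zeros
of `S`, over any field containing `K`: the equations of the Hadamard power `X^(e)`. -/
def Had {K : Type} [Field K] {n : ℕ} (S : Set (MvPolynomial (Fin (n + 1)) K)) (e : ℕ) :
    Set (MvPolynomial (Fin (n + 1)) K) :=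
  {G | (∃ d, G.IsHomogeneous d) ∧ ∀ (L : Type) [Field L] (φ : K →+* L)
    (z : Fin e → Fin (n + 1) → L), (∀ j, ∀ F ∈ S, MvPolynomial.eval₂ φ (z j) F = 0) →
      MvPolynomial.eval₂ φ (fun i => ∏ j, z j i) G = 0}

/-- Every coordinate of `η` is zero or a `w`-th root of unity. -/
def IsTrivial (w : ℕ) {K : Type} [Field K] {n : ℕ} (η : Fin (n + 1) → K) : Prop :=
  ∀ i, η i = 0 ∨ η i ^ w = 1

/-- The set `A` of positive integers has natural density `δ`. -/
def HasDensity (A : Set ℕ) (δ : ℝ) : Prop :=
  Tendsto (fun N : ℕ => ((A ∩ Set.Icc 1 N).ncard : ℝ) / N) atTop (𝓝 δ)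

/-- the norm of a point is a point of the Hadamard power -/
lemma norm_isPt {K k L : Type} [Field K] [Field k] [CharZero k] [Field L] [Algebra k L]
    [FiniteDimensional k L] (φ : K →+* k) {n : ℕ} (S : Set (MvPolynomial (Fin (n + 1)) K))
    {m : ℕ} {x : Fin (n + 1) → L} (hx : IsPt ((algebraMap k L).comp φ) S m x) :
    IsPt φ (Had S (Module.finrank k L)) m (fun i => Algebra.norm k (x i)) := by
  refine ⟨fun h => hx.1 ?_, fun G hG => ?_⟩
  · funext i
    have h1 := congrFun h i
    simp only [Pi.zero_apply] at h1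
    exact Algebra.norm_eq_zero_iff.1 h1
  · let E := AlgebraicClosure k
    have hcard : Fintype.card (L →ₐ[k] E) = Module.finrank k L := AlgHom.card k L E
    let σ : Fin (Module.finrank k L) ≃ (L →ₐ[k] E) := (Fintype.equivFinOfCardEq hcard).symm
    have h1 := hG.2 E ((algebraMap k E).comp φ) (fun j i => σ j (x i) ^ m) (fun j F hF => by
      have h2 := congrArg (σ j) (hx.2 F hF)
      rw [map_zero] at h2
      have h3 : (σ j) (MvPolynomial.eval₂ ((algebraMap k L).comp φ) (fun i => x i ^ m) F) =
          MvPolynomial.eval₂ ((algebraMap k E).comp φ) (fun i => σ j (x i) ^ m) F := by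
        have h4 := MvPolynomial.hom_eval₂ F ((algebraMap k L).comp φ) (σ j : L →+* E)
          (fun i => x i ^ m)
        have h5 : (σ j : L →+* E).comp ((algebraMap k L).comp φ) = (algebraMap k E).comp φ := by
          ext a
          simp
        rw [h5] at h4
        have h6 : (fun i => (σ j : L →+* E) (x i ^ m)) = fun i => σ j (x i) ^ m := by
          funext i
          simp
        rw [h6] at h4
        exact h4
      rw [h3] at h2
      exact h2)
    have h2 : (fun i => ∏ j, σ j (x i) ^ m) =
        fun i => algebraMap k E (Algebra.norm k (x i) ^ m) := by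
      funext i
      rw [Finset.prod_pow, map_pow, Algebra.norm_eq_prod_embeddings k E (x i)]
      congr 1
      exact Equiv.prod_comp σ (fun τ : L →ₐ[k] E => τ (x i))
    rw [h2] at h1
    apply (algebraMap k E).injective
    rw [map_zero, MvPolynomial.hom_eval₂]
    exact h1

/-- **Main theorem.** Let `w` be even, `K = ℚ(ζ_w)`, let `X ⊂ ℙ^n` be the set of zeros of an
arbitrary set `S` of forms with coefficients in `K`, let `X_m` be the pull-back of `X` under
`x ↦ x^m`, let `X^(e)` be the Zariski closure of the set of coordinatewise products of `e` points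
of `X`, and let `D ≥ 1`.

1. For every `r` and all `m` outside a set of density zero, there are `r` primes `q`, such that
   `K` has an embedding in `ℚ_q`, with the following property: for every embedding
   `φ : K → ℚ_q`, every extension `L` of `ℚ_q` of degree `e ≤ D` and every point `x` of `X_m` over
   `L` there is a point `η` of `(X^(e))_m` over `K` whose coordinates are zero or `w`-th roots of
   unity, and whose nonzero coordinates are at the places of the `x_i` whose norms have maximal
   absolute value.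
2. For all `m` outside a set of density zero and all extensions `L` of `K` of degree `e ≤ D`,
   if `X_m` has a point over `L`, then `(X^(e))_m` has a point over `K` whose coordinates are zero
   or `w`-th roots of unity. -/
theorem result {w : ℕ} [NeZero w] (hw : Even w) {K : Type} [Field K] [CharZero K]
    [IsCyclotomicExtension {w} ℚ K] {n : ℕ} (S : Set (MvPolynomial (Fin (n + 1)) K)) (D : ℕ) :
    (∀ r : ℕ, HasDensity {m | ∃ Q : Finset ℕ, Q.card = r ∧ ∀ q ∈ Q, ∃ _ : Fact q.Prime,
      Nonempty (K →+* ℚ_[q]) ∧ ∀ (φ : K →+* ℚ_[q]) (L : Type) [Field L] [Algebra ℚ_[q] L]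
        [FiniteDimensional ℚ_[q] L], Module.finrank ℚ_[q] L ≤ D → ∀ x : Fin (n + 1) → L,
          IsPt ((algebraMap ℚ_[q] L).comp φ) S m x → ∃ η : Fin (n + 1) → K, IsTrivial w η ∧
            IsPt (RingHom.id K) (Had S (Module.finrank ℚ_[q] L)) m η ∧
            ∀ i, (η i ≠ 0 ↔ ∀ j, ‖Algebra.norm ℚ_[q] (x j)‖ ≤ ‖Algebra.norm ℚ_[q] (x i)‖)} 1) ∧
    HasDensity {m | ∀ (L : Type) [Field L] [Algebra K L] [FiniteDimensional K L],
      Module.finrank K L ≤ D → ∀ x : Fin (n + 1) → L, IsPt (algebraMap K L) S m x →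
        ∃ η : Fin (n + 1) → K, IsTrivial w η ∧
          IsPt (RingHom.id K) (Had S (Module.finrank K L)) m η} 1 := by
  classical
  -- the set of good exponents
  set W : ℕ → Set ℕ := fun r => {m | ∃ Q : Finset ℕ, Q.card = r ∧ ∀ q ∈ Q,
    ∀ e ∈ Finset.range (D + 1), Pool.Agent.H912.AE.WitK w (Had S e) m q} with hW
  have hWd : ∀ r, HasDensity (W r) 1 := by
    intro r
    refine Pool.Agent.H912.AE.full_of fun ε hε => ?_
    obtain ⟨N₀, h⟩ := Pool.Agent.H912.AE.witnessesKF hw.two_dvd (Finset.range (D + 1))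
      (fun e => Had S e) (fun e _ F hF => hF.1) r 0 hε
    refine ⟨N₀, fun M hM => le_trans ?_ (h M hM)⟩
    have h1 : (Finset.range M).filter (fun m => m ∉ W r) ⊆ (Finset.range M).filter (fun m =>
        ¬ ∃ Q : Finset ℕ, Q.card = r ∧ ∀ q ∈ Q, 0 < q ∧
          ∀ e ∈ Finset.range (D + 1), Pool.Agent.H912.AE.WitK w (Had S e) m q) := by
      intro m hm
      rw [Finset.mem_filter] at hm ⊢
      refine ⟨hm.1, ?_⟩
      rintro ⟨Q, hQ, hQ'⟩
      exact hm.2 ⟨Q, hQ, fun q hq => (hQ' q hq).2⟩
    exact_mod_cast Finset.card_le_card h1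
  have hcongr : ∀ (E : Set ℕ) (r : ℕ), (∀ m ∈ W r, 1 ≤ m → m ∈ E) → HasDensity E 1 :=
    fun E r h => Pool.Agent.H912.AE.density_congr (hWd r) Pool.Agent.H912.AE.density_univ
      fun m hm hm1 => ⟨fun _ => Set.mem_univ _, fun _ => h m hm hm1⟩
  -- the property of a witness
  have hwit : ∀ (m q e : ℕ), Pool.Agent.H912.AE.WitK w (Had S e) m q → ∃ _ : Fact q.Prime,
      Nonempty (K →+* ℚ_[q]) ∧ ∀ (φ : K →+* ℚ_[q]) (x : Fin (n + 1) → ℚ_[q]),
        IsPt φ (Had S e) m x → ∃ η : Fin (n + 1) → K, IsTrivial w η ∧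
          IsPt (RingHom.id K) (Had S e) m η ∧ ∀ i, (η i ≠ 0 ↔ ∀ j, ‖x j‖ ≤ ‖x i‖) := by
    rintro m q e ⟨hq, h0, h⟩
    refine ⟨hq, h0, fun φ x hx => ?_⟩
    obtain ⟨η, h1, h2, h3⟩ := h φ x hx.1 hx.2
    refine ⟨η, h1, ⟨?_, ?_⟩, h2⟩
    · intro h5
      obtain ⟨i, hi⟩ := Finite.exists_max (fun i => ‖x i‖)
      exact (h2 i).2 hi (congrFun h5 i)
    · exact h3
  have hloc : ∀ (e m q : ℕ) [Fact q.Prime] (φ : K →+* ℚ_[q]) (x : Fin (n + 1) → K),
      IsPt (RingHom.id K) (Had S e) m x → IsPt φ (Had S e) m (fun i => φ (x i)) := by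
    intro e m q _ φ x hx
    refine ⟨fun h => hx.1 ?_, fun F hF => ?_⟩
    · funext i
      have := congrFun h i
      simp only [Pi.zero_apply, map_eq_zero] at this
      exact this
    · have h1 := congrArg φ (hx.2 F hF)
      rw [map_zero, MvPolynomial.hom_eval₂, RingHomCompTriple.comp_eq] at h1
      have h2 : (⇑φ ∘ fun i => x i ^ m) = fun i => φ (x i) ^ m := by
        funext i
        simp
      rw [← h2]
      exact h1
  refine ⟨fun r => hcongr _ r fun m hm _ => ?_, hcongr _ 1 fun m hm _ => ?_⟩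
  · obtain ⟨Q, hQ, hQ'⟩ := hm
    refine ⟨Q, hQ, fun q hq => ?_⟩
    obtain ⟨h1, h2, -⟩ := hwit m q 0 (hQ' q hq 0 (Finset.mem_range.2 (by omega)))
    refine ⟨h1, h2, fun φ L _ _ _ hL x hx => ?_⟩
    obtain ⟨_, _, h3⟩ := hwit m q _ (hQ' q hq (Module.finrank ℚ_[q] L)
      (Finset.mem_range.2 (by omega)))
    exact h3 φ _ (norm_isPt φ S hx)
  · intro L _ _ _ hL x hx
    obtain ⟨Q, hQ, hQ'⟩ := hm
    obtain ⟨q, hq⟩ := Finset.card_eq_one.1 hQ
    obtain ⟨h1, ⟨φ⟩, h3⟩ := hwit m q _ (hQ' q (by rw [hq]; exact Finset.mem_singleton_self q)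
      (Module.finrank K L) (Finset.mem_range.2 (by omega)))
    have h4 : IsPt ((algebraMap K L).comp (RingHom.id K)) S m x := by
      rw [RingHom.comp_id]
      exact hx
    obtain ⟨η, h5, h6, -⟩ := h3 φ _ (hloc _ m q φ _ (norm_isPt (RingHom.id K) S h4))
    exact ⟨η, h5, h6⟩

end Pool.Agent.Results.MP_9b9442_nt.BoundedDegree
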