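import Pool.Agent.H431.KU.MainD
import Pool.Agent.H431.PN.General
import Pool.Agent.H431.CV.Step2

/-!
# Coverings of diagonal complete intersections: the exceptional set grows with the degree of the
points

Let `K` be any number field, `m ≥ 1`, and let `ℓ_0, …, ℓ_{q-1}` be `q ≥ n + 2` linear forms in
`x_0, …, x_n` over `K`, any `n + 1` of them linearly independent. The variety `Y ⊆ ℙ^{q-1}` is defined
by the equations `∑_j c_j y_j^m = 0` for all the relations `∑_j c_j ℓ_j = 0`: every diagonal
hypersurface `∑_j c_j y_j^m = 0` with nonzero coefficients if `q = n + 2`, and every smooth complete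
intersection of `q - n - 1` diagonal hypersurfaces of degree `m` in general. Let `N ≥ 1`, let `A_i` be
forms of degree `N - i` in `y_0, …, y_{q-1}`, and let `X ⊆ ℙ^q` be given by `(y_0 : … : y_{q-1}) ∈ Y`
and `z^N + ∑_{i < N} A_i(y) z^i = 0`, the complete intersection of the cone over `Y` and of any
hypersurface of degree `N` that does not contain the vertex of the cone (`X = Y` if `N = 1`). If `X` is
smooth, then `K_X = (m (q - n - 1) + N - q - 1) H`, where `H` is the hyperplane class. All heights and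
discriminants are normalised relative to `K`, as in the problem. A point of `X` over a number field
`L` is given by its homogeneous coordinates `P = (y_0, …, y_{q-1}, z)` in `L`.
-/

set_option autoImplicit false

namespace Pool.Agent.Results.MP_9b9442_nt.CoveringsOfDiagonalIntersections

open IsDedekindDomain NumberField

/-- The point `y` of `ℙ^{q-1}` lies on the variety `Y` defined by the equations
`∑_j c_j y_j^m = 0` for all `c` such that `∑_j c_j ℓ_j = 0`, where `ℓ_j = ∑_i a_{ji} x_i`. -/
def OnY {K L : Type} [Field K] [Field L] [Algebra K L] {n q : ℕ} (m : ℕ)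
    (a : Fin q → Fin (n + 1) → K) (y : Fin q → L) : Prop :=
  ∀ c : Fin q → K, (∀ i, ∑ j, c j * a j i = 0) → ∑ j, algebraMap K L (c j) * y j ^ m = 0

/-- The value of `z^N + ∑_{i < N} A_i(y) z^i` at the point `P = (y, z)`. -/
noncomputable def equation {K L : Type} [Field K] [Field L] [Algebra K L] {q : ℕ} (N : ℕ)
    (A : ℕ → MvPolynomial (Fin q) K) (P : Fin (q + 1) → L) : L :=
  P (Fin.last q) ^ N + ∑ i ∈ Finset.range N,
    MvPolynomial.aeval (fun j => P (Fin.castSucc j)) (A i) * P (Fin.last q) ^ i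

/-- The value of the derivative `N z^{N-1} + ∑_{i < N} i A_i(y) z^{i-1}` of the equation with
respect to `z` at the point `P = (y, z)`. -/
noncomputable def derivative {K L : Type} [Field K] [Field L] [Algebra K L] {q : ℕ} (N : ℕ)
    (A : ℕ → MvPolynomial (Fin q) K) (P : Fin (q + 1) → L) : L :=
  N * P (Fin.last q) ^ (N - 1) + ∑ i ∈ Finset.range N,
    i * (MvPolynomial.aeval (fun j => P (Fin.castSucc j)) (A i) * P (Fin.last q) ^ (i - 1))

/-- The point `P = (y, z)` of `ℙ^q` lies on `X`: `y` lies on `Y`, and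
`z^N + ∑_{i < N} A_i(y) z^i = 0`. -/
def OnX {K L : Type} [Field K] [Field L] [Algebra K L] {n q : ℕ} (m : ℕ)
    (a : Fin q → Fin (n + 1) → K) (N : ℕ) (A : ℕ → MvPolynomial (Fin q) K)
    (P : Fin (q + 1) → L) : Prop :=
  OnY m a (fun j => P (Fin.castSucc j)) ∧ equation N A P = 0

/-- The height of the point `y` of projective space, relative to `K`. -/
noncomputable def height (K : Type) {L : Type} [Field K] [Field L] [NumberField L] [Algebra K L]
    {q : ℕ} (y : Fin q → L) : ℝ :=
  Height.logHeight y / Module.finrank K L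

/-- The logarithmic discriminant
`d_K(P) = log |disc L| / [L : K] - log |disc K|` for `L = K(P)`. -/
noncomputable def logDisc (K L : Type) [Field K] [NumberField K] [Field L] [NumberField L]
    [Algebra K L] : ℝ :=
  Real.log |(NumberField.discr L : ℝ)| / Module.finrank K L -
    Real.log |(NumberField.discr K : ℝ)|

/-- The hypersurface `G(y) = 0` contains an exceptional set for the inequality
`c h(P) ≤ d_K(P) + O(1)` on `X` and the points of degree at most `r`: there is `C` such that
`c h(P) ≤ d_K(P) + C` for all points `P = (y_0 : … : y_{q-1} : z)` of `X` with `[K(P) : K] ≤ r` and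
`G(y) ≠ 0`. Here `K(P)` is the field generated over `K` by the quotients of the coordinates. -/
def Exceptional {K : Type} [Field K] [NumberField K] {n q : ℕ} (m : ℕ)
    (a : Fin q → Fin (n + 1) → K) (N : ℕ) (A : ℕ → MvPolynomial (Fin q) K) (r : ℕ) (c : ℝ)
    (G : MvPolynomial (Fin q) K) : Prop :=
  ∃ C : ℝ, ∀ (L : Type) [Field L] [NumberField L] [Algebra K L] (P : Fin (q + 1) → L), P ≠ 0 →
    OnX m a N A P → IntermediateField.adjoin K {x : L | ∃ i j, x = P i / P j} = ⊤ →
    Module.finrank K L ≤ r → MvPolynomial.aeval (fun j => P (Fin.castSucc j)) G ≠ 0 →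
    c * height K P ≤ logDisc K L + C

open Pool.Agent.H431.OC Pool.Agent.H431.MT Pool.Agent.H431.PN Pool.Agent.H431.KU
open Pool.Agent.Q290.NF

/-- the parametrisation of the linear space of the `y_j^m` -/
theorem onY_iff {K L : Type} [Field K] [Field L] [Algebra K L] {n q m : ℕ}
    (a : Fin q → Fin (n + 1) → K) (f : Fin (n + 1) → Fin q)
    (hf : LinearIndependent K (fun i => a (f i))) (y : Fin q → L) :
    OnY m a y ↔ ∃ x : Fin (n + 1) → L, ∀ j, y j ^ m = ∑ i, algebraMap K L (a j i) * x i := by
  classical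
  constructor
  · intro h
    obtain ⟨D, hD⟩ := left_inv a f hf
    refine ⟨fun k => ∑ j, algebraMap K L (D (k, j)) * y j ^ m, fun j => ?_⟩
    have h1 := h (fun l => (if l = j then 1 else 0) - ∑ k, a j k * D (k, l)) (by
      intro i
      have h2 := fun k => hD K (fun l => if l = i then (1 : K) else 0) k
      simp only [Algebra.algebraMap_self, RingHom.id_apply, mul_ite, mul_one, mul_zero,
        Finset.sum_ite_eq', Finset.mem_univ, if_true] at h2
      simp_rw [sub_mul, Finset.sum_sub_distrib, Finset.sum_mul]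
      rw [Finset.sum_comm]
      have h3 : ∑ k, ∑ l, a j k * D (k, l) * a l i = a j i := by
        have h4 : ∀ k, ∑ l, a j k * D (k, l) * a l i = a j k * if k = i then 1 else 0 := by
          intro k
          rw [← h2 k, Finset.mul_sum]
          refine Finset.sum_congr rfl fun l _ => ?_
          ring
        simp_rw [h4]
        simp
      rw [h3]
      simp)
    simp_rw [map_sub, sub_mul, Finset.sum_sub_distrib] at h1
    rw [sub_eq_zero] at h1
    have h5 : ∑ l, algebraMap K L (if l = j then 1 else 0) * y l ^ m = y j ^ m := by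
      simp
    rw [h5] at h1
    rw [h1]
    simp_rw [map_sum, Finset.sum_mul, Finset.mul_sum]
    rw [Finset.sum_comm]
    refine Finset.sum_congr rfl fun k _ => Finset.sum_congr rfl fun l _ => ?_
    rw [map_mul]
    ring
  · rintro ⟨x, hx⟩ c hc
    have h1 : ∀ j, algebraMap K L (c j) * y j ^ m = ∑ i, algebraMap K L (c j * a j i) * x i := by
      intro j
      rw [hx j, Finset.mul_sum]
      refine Finset.sum_congr rfl fun i _ => ?_
      rw [map_mul]
      ring
    simp_rw [h1]
    rw [Finset.sum_comm]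
    refine Finset.sum_eq_zero fun i _ => ?_
    rw [← Finset.sum_mul, ← map_sum, hc i, map_zero, zero_mul]

/-- change of coordinates -/
theorem change {K L : Type} [Field K] [Field L] [Algebra K L] {n q : ℕ}
    (a : Fin q → Fin (n + 1) → K) (B : Fin (n + 1) × Fin (n + 1) → K)
    (B' : Fin (n + 1) × Fin (n + 1) → K)
    (hB : ∀ k l, ∑ j, B (k, j) * B' (j, l) = if k = l then 1 else 0)
    (x : Fin (n + 1) → L) (j : Fin q) :
    ∑ k, algebraMap K L (∑ l, a j l * B (l, k)) * (∑ i, algebraMap K L (B' (k, i)) * x i) =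
      ∑ i, algebraMap K L (a j i) * x i := by
  classical
  have h1 : ∀ k, algebraMap K L (∑ l, a j l * B (l, k)) *
      (∑ i, algebraMap K L (B' (k, i)) * x i) =
      ∑ i, ∑ l, algebraMap K L (a j l * (B (l, k) * B' (k, i))) * x i := by
    intro k
    rw [Finset.mul_sum]
    refine Finset.sum_congr rfl fun i _ => ?_
    rw [map_sum, Finset.sum_mul]
    refine Finset.sum_congr rfl fun l _ => ?_
    simp only [map_mul]
    ring
  simp_rw [h1]
  rw [Finset.sum_comm]
  refine Finset.sum_congr rfl fun i _ => ?_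
  rw [Finset.sum_comm]
  have h2 : ∀ l, ∑ k, algebraMap K L (a j l * (B (l, k) * B' (k, i))) * x i =
      algebraMap K L (a j l * if l = i then 1 else 0) * x i := by
    intro l
    rw [← Finset.sum_mul, ← map_sum, ← Finset.mul_sum, hB]
  simp_rw [h2]
  rw [Finset.sum_eq_single i]
  · rw [if_pos rfl, mul_one]
  · intro l _ hl
    rw [if_neg hl, mul_zero, map_zero, zero_mul]
  · intro h
    exact absurd (Finset.mem_univ i) h

/-- the field generated by the coordinates -/
theorem gen_all {K L E : Type} [Field K] [Field L] [Field E] [Algebra K L] [Algebra L E]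
    [Algebra K E] [IsScalarTower K L E] {ι : Type} (y : ι → L)
    (hy : IntermediateField.adjoin K (Set.range y) = ⊤) (z : E)
    (hz : IntermediateField.adjoin L {z} = ⊤) (S : IntermediateField K E)
    (h1 : ∀ j, algebraMap L E (y j) ∈ S) (h2 : z ∈ S) : S = ⊤ := by
  have h3 : ∀ l : L, algebraMap L E l ∈ S := by
    have h4 : (⊤ : IntermediateField K L) ≤
        IntermediateField.comap (IsScalarTower.toAlgHom K L E) S := by
      rw [← hy, IntermediateField.adjoin_le_iff]
      rintro _ ⟨j, rfl⟩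
      exact h1 j
    intro l
    exact h4 (IntermediateField.mem_top (x := l))
  rw [← top_le_iff]
  intro x _
  have hx : x ∈ IntermediateField.adjoin L {z} := by
    rw [hz]
    exact IntermediateField.mem_top
  induction hx using IntermediateField.adjoin_induction with
  | mem x hx =>
    rw [Set.mem_singleton_iff] at hx
    rw [hx]
    exact h2
  | algebraMap x => exact h3 x
  | add x y _ _ hx hy => exact S.add_mem (hx trivial) (hy trivial)
  | inv x _ hx => exact S.inv_mem (hx trivial)
  | mul x y _ _ hx hy => exact S.mul_mem (hx trivial) (hy trivial)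

/-- **Coverings of diagonal complete intersections: the exceptional set grows with the degree of the
points.** Let `K` be a number field, `n ≥ 1`, `m ≥ 1`, `q ≥ n + 2`, `N ≥ 1`, let `Y ⊆ ℙ^{q-1}` be the
complete intersection of diagonal hypersurfaces of degree `m` given by `q` linear forms in general
position, `X → Y` the covering `z^N + ∑_{i < N} A_i(y) z^i = 0`, and
`c > m / n + (q - n - 2) (m - 1) + N - 1`. Let `G(y)` be a form of degree `d` that is not zero on `Y` and
that vanishes at the points of `X` at which the derivative of the equation vanishes. If the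
hypersurface `G = 0` contains an exceptional set for the inequality `c h(P) ≤ d_K(P) + O(1)` on `X` and
the points of degree at most `r` over `K`, then
`r < N (2 max(1, ⌊d/m⌋ + q - n - 2))^(n - 1) m^(q - 1)`. -/
theorem result (K : Type) [Field K] [NumberField K]
    (n m q : ℕ) (hn : 1 ≤ n) (hm : 1 ≤ m)
    (hq : n + 2 ≤ q) (a : Fin q → Fin (n + 1) → K)
    (ha : ∀ f : Fin (n + 1) → Fin q, Function.Injective f →
      LinearIndependent K (fun i => a (f i)))
    (N : ℕ) (hN : 1 ≤ N) (A : ℕ → MvPolynomial (Fin q) K)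
    (hA : ∀ i < N, (A i).IsHomogeneous (N - i))
    (c1 : ℝ) (hc1 : (m : ℝ) / n + (q - n - 2) * (m - 1) + (N - 1) < c1) (d : ℕ)
    (G : MvPolynomial (Fin q) K) (hdeg : G.IsHomogeneous d)
    (hex : ∃ (L : Type) (_ : Field L) (_ : NumberField L) (_ : Algebra K L) (y : Fin q → L),
      OnY m a y ∧ MvPolynomial.aeval y G ≠ 0)
    (hGF : ∀ (L : Type) [Field L] [NumberField L] [Algebra K L] (P : Fin (q + 1) → L),
      OnX m a N A P → derivative N A P = 0 →
      MvPolynomial.aeval (fun j => P (Fin.castSucc j)) G = 0)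
    (r : ℕ) (h : Exceptional m a N A r c1 G) :
    r < N * ((2 * max 1 (d / m + (q - n - 2))) ^ (n - 1) * m ^ (q - 1)) := by
  classical
  by_contra hr
  rw [not_lt] at hr
  obtain ⟨C, H⟩ := h
  have hn0 : (0 : ℝ) < n := by exact_mod_cast hn
  obtain ⟨L0, k1, k2, k3, y0, hy0, hGy0⟩ := hex
  obtain ⟨s, rfl⟩ : ∃ s, q = n + 2 + s := ⟨q - (n + 2), by omega⟩
  obtain ⟨c, hcd⟩ : ∃ c : ℝ, c = c1 - (N - 1) := ⟨_, rfl⟩
  have hc' : (m : ℝ) + n * (s * (m - 1)) < c * n := by
    have h1 : (m : ℝ) / n + s * (m - 1) < c := by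
      rw [hcd]
      push_cast at hc1
      have e1 : (n : ℝ) + 2 + s - n - 2 = s := by ring
      rw [e1] at hc1
      linarith
    have h2 := mul_lt_mul_of_pos_right h1 hn0
    have h3 : ((m : ℝ) / n + s * (m - 1)) * n = m + n * (s * (m - 1)) := by
      field_simp
    rw [h3] at h2
    exact h2
  have hc0 : 0 < c := by
    have hm1 : (1 : ℝ) ≤ m := by exact_mod_cast hm
    have h1 : 0 ≤ (n : ℝ) * (s * (m - 1)) :=
      mul_nonneg hn0.le (mul_nonneg (Nat.cast_nonneg _) (by linarith))
    have h2 : 0 < c * n := by linarith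
    exact pos_of_mul_pos_left h2 hn0.le
  -- normal form
  obtain ⟨γ, B, hγ, hlast, hBA, hAB⟩ := normal_form
    (fun j : Fin (n + 2) => a (Fin.castAdd s j)) (fun f hf =>
      ha (fun i => Fin.castAdd s (f i)) ((Fin.castAdd_injective _ _).comp hf))
  obtain ⟨A', hA'⟩ : ∃ A' : Fin (n + 2 + s) → Fin (n + 1) → K, A' = fun j l =>
    ∑ k, a j k * B (k, l) := ⟨_, rfl⟩
  obtain ⟨B', hB'⟩ : ∃ B' : Fin (n + 1) × Fin (n + 1) → K, B' = fun p =>
    γ p.1 * a (Fin.castAdd s p.1.castSucc) p.2 := ⟨_, rfl⟩
  have hBB' : ∀ k l, ∑ j, B (k, j) * B' (j, l) = if k = l then 1 else 0 := by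
    intro k l
    rw [← hBA k l, hB']
  have hA1 : ∀ i : Fin (n + 1), A' (Fin.castAdd s i.castSucc) = Pi.single i (γ i)⁻¹ := by
    intro i
    funext l
    have h1 := hAB i l
    have h2 : γ i * A' (Fin.castAdd s i.castSucc) l = if i = l then 1 else 0 := by
      rw [← h1, hA', Finset.mul_sum]
      refine Finset.sum_congr rfl fun k _ => ?_
      ring
    by_cases hl : i = l
    · rw [if_pos hl] at h2
      rw [← hl, Pi.single_eq_same]
      rw [← hl] at h2
      exact eq_inv_of_mul_eq_one_right h2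
    · rw [if_neg hl] at h2
      rw [Pi.single_eq_of_ne (Ne.symm hl)]
      exact (mul_eq_zero.1 h2).resolve_left (hγ i)
  have hA2 : A' (Fin.castAdd s (Fin.last (n + 1))) = fun _ => 1 := by
    funext l
    rw [hA']
    simp only
    simp_rw [hlast, Finset.sum_mul]
    rw [Finset.sum_comm]
    rw [Finset.sum_congr rfl fun j _ => hAB j l]
    simp
  have hA3 : ∀ i : Fin s, A' (Fin.natAdd (n + 2) i) ≠ 0 := by
    intro i h
    -- the form `a` is not zero
    obtain ⟨f, hf, hfi⟩ : ∃ f : Fin (n + 1) → Fin (n + 2 + s), Function.Injective f ∧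
        f 0 = Fin.natAdd (n + 2) i := by
      refine ⟨Fin.cons (Fin.natAdd (n + 2) i) fun k : Fin n =>
        Fin.castAdd s (Fin.castLE (by omega) k), ?_, Fin.cons_zero _ _⟩
      rw [Fin.cons_injective_iff]
      constructor
      · rintro ⟨k, hk⟩
        have h1 := congrArg Fin.val hk
        rw [Fin.val_natAdd, Fin.val_castAdd, Fin.val_castLE] at h1
        have := k.2
        omega
      · exact (Fin.castAdd_injective _ _).comp (Fin.castLE_injective _)
    have h1 := (ha f hf).ne_zero 0
    rw [hfi] at h1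
    apply h1
    funext l
    have h2 := change (L := K) a B B' hBB' (Pi.single l 1) (Fin.natAdd (n + 2) i)
    have h3 : ∀ k, ∑ l', a (Fin.natAdd (n + 2) i) l' * B (l', k) = 0 := by
      intro k
      have h4 := congrFun h k
      rw [hA'] at h4
      exact h4
    simp_rw [h3, map_zero, zero_mul] at h2
    rw [Finset.sum_const_zero, Finset.sum_eq_single l] at h2
    · rw [Pi.single_eq_same, mul_one] at h2
      exact h2.symm
    · intro l' _ hl'
      rw [Pi.single_eq_of_ne hl', mul_zero]
    · intro h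
      exact absurd (Finset.mem_univ l) h
  -- the constants
  obtain ⟨C2, hC2, HC⟩ := Pool.Agent.H431.CV.cover_step hN A hA
  obtain ⟨N1, hN1, HN⟩ := exists_bad (k := K)
    ((Finset.range N).biUnion fun i => (A i).support.image fun s => (A i).coeff s)
  have hl1 : 0 ≤ Real.log N1 := Real.log_natCast_nonneg _
  obtain ⟨C3, hC3, HL⟩ := lin_le (k := K) (ι := Fin (n + 2 + s + 1)) (ι' := Fin (n + 2 + s))
    (fun p => if p.2 = p.1.castSucc then 1 else 0)
  -- the point of the hypothesis
  obtain ⟨f, hf⟩ : ∃ f : Fin (n + 1) → Fin (n + 2 + s), Function.Injective f :=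
    ⟨Fin.castLE (by omega), Fin.castLE_injective _⟩
  obtain ⟨x, hx⟩ := (onY_iff a f (ha f hf) y0).1 hy0
  obtain ⟨M, i1, i2, i3, y, x', hy, hy1, hdegM, hyx, hyne, -, hGy, hmain⟩ :=
    main_div K n m s d 0 hn (by omega) A' (fun i => (γ i)⁻¹) (fun i => inv_ne_zero (hγ i)) hA1
      hA2 hA3 G hdeg 1 (MvPolynomial.isHomogeneous_one _ _) L0 y0
      (fun k => ∑ i, algebraMap K L0 (B' (k, i)) * x i) (by
        intro j
        rw [hx, ← change a B B' hBB' x j, hA']) hGy0 (by rw [map_one]; exact one_ne_zero) c hc'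
      (C + Module.finrank ℚ K * (C2 + c * C3 + Real.log N1))
  have hon : OnY m a y := by
    intro c0 hc0
    have h1 : ∀ j, algebraMap K M (c0 j) * y j ^ m =
        ∑ k, algebraMap K M (c0 j * A' j k) * x' k := by
      intro j
      rw [hyx j, Finset.mul_sum]
      refine Finset.sum_congr rfl fun i _ => ?_
      rw [map_mul]
      ring
    simp_rw [h1]
    rw [Finset.sum_comm]
    refine Finset.sum_eq_zero fun k _ => ?_
    rw [← Finset.sum_mul, ← map_sum]
    have h2 : ∑ j, c0 j * A' j k = 0 := by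
      rw [hA']
      simp_rw [Finset.mul_sum]
      rw [Finset.sum_comm]
      refine Finset.sum_eq_zero fun l _ => ?_
      have h3 : ∑ j, c0 j * (a j l * B (l, k)) = (∑ j, c0 j * a j l) * B (l, k) := by
        rw [Finset.sum_mul]
        refine Finset.sum_congr rfl fun j _ => ?_
        ring
      rw [h3, hc0 l, zero_mul]
    rw [h2, map_zero, zero_mul]
  -- the bad primes of the point of `Y`
  obtain ⟨j1, hj1⟩ : ∃ j1 : Fin (n + 2 + s), j1 = Fin.castAdd s (Fin.last (n + 1)) := ⟨_, rfl⟩
  rw [← hj1] at hy1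
  have hVfin : (Set.Finite {v : HeightOneSpectrum (𝓞 M) | ∃ (k : Fin (n + 2 + s))
      (j : Fin (n + 2)), v.valuation M (y (Fin.castAdd s j)) < v.valuation M (y k)}) := by
    refine (Set.finite_iUnion fun j => fin_ord (hyne j)).subset ?_
    rintro w ⟨k, j, hk⟩
    by_contra hc
    rw [Set.mem_iUnion, not_exists] at hc
    have h4 : ∀ j, w.valuation M (y j) = 1 := by
      intro j
      refine (ord_eq_zero_iff w (hyne j)).1 ?_
      by_contra h5
      exact hc j h5
    rw [h4, h4] at hk
    exact lt_irrefl _ hk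
  have hN1M : (N1 : M) ≠ 0 := Nat.cast_ne_zero.2 hN1
  obtain ⟨Vb, hVb⟩ : ∃ Vb, Vb = hVfin.toFinset := ⟨_, rfl⟩
  obtain ⟨VN, hVN⟩ : ∃ VN, VN = (fin_ord hN1M).toFinset := ⟨_, rfl⟩
  obtain ⟨V, hV⟩ : ∃ V, V = Vb ∪ VN := ⟨_, rfl⟩
  have hVgood : ∀ v, v ∉ V → (∀ (k : Fin (n + 2 + s)) (j : Fin (n + 2)),
      v.valuation M (y k) ≤ v.valuation M (y (Fin.castAdd s j))) ∧ ord v (N1 : M) = 0 := by
    intro v hv
    rw [hV, Finset.mem_union, not_or, hVb, hVN, Set.Finite.mem_toFinset,
      Set.Finite.mem_toFinset, Set.mem_ofPred_eq, Set.mem_ofPred_eq, not_not] at hv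
    refine ⟨fun k j => not_lt.1 fun h => hv.1 ⟨k, j, h⟩, hv.2⟩
  have hVint : ∀ v, v ∉ V → ∀ i, 0 ≤ ord v (y i) := by
    intro v hv i
    rw [ord_nonneg_iff]
    have h1 := (hVgood v hv).1 i (Fin.last (n + 1))
    rw [← hj1, hy1, map_one] at h1
    exact h1
  obtain ⟨E, g1, g2, g3, g4, g5, z, hz, hdegE, hadj, hcov⟩ := HC M y j1 hy1 V hVint
  obtain ⟨P, hP⟩ : ∃ P : Fin (n + 2 + s + 1) → E, P =
    Fin.snoc (fun j => algebraMap M E (y j)) z := ⟨_, rfl⟩
  rw [← hP] at hcov
  have hPj : ∀ j, P (Fin.castSucc j) = algebraMap M E (y j) := by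
    intro j
    rw [hP]
    exact Fin.snoc_castSucc (α := fun _ => E) z _ j
  have hPl : P (Fin.last _) = z := by
    rw [hP]
    exact Fin.snoc_last (α := fun _ => E) z _
  have hPf : (fun j => P (Fin.castSucc j)) = fun j => algebraMap M E (y j) := funext hPj
  have inj := (algebraMap M E).injective
  have hOn : OnX m a N A P := by
    refine ⟨?_, ?_⟩
    · rw [hPf]
      intro c0 hc0
      have h1 := congrArg (algebraMap M E) (hon c0 hc0)
      rw [map_sum, map_zero] at h1
      rw [← h1]
      refine Finset.sum_congr rfl fun j _ => ?_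
      rw [map_mul, map_pow, ← IsScalarTower.algebraMap_apply]
    · unfold equation
      rw [hPf, hPl]
      exact hz
  have hGP : MvPolynomial.aeval (fun j => P (Fin.castSucc j)) G ≠ 0 := by
    rw [hPf]
    have h1 : MvPolynomial.aeval (fun j => algebraMap M E (y j)) G =
        algebraMap M E (MvPolynomial.aeval y G) := MvPolynomial.aeval_algebraMap_apply E y G
    rw [h1]
    exact (_root_.map_ne_zero _).2 hGy
  have hdP : derivative N A P ≠ 0 := fun h0 => hGP (hGF E P hOn h0)
  have hcov' := hcov (by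
    rw [hP, Pool.Agent.H431.CV.dform_eval]
    unfold derivative at hdP
    rw [hPf, hPl] at hdP
    exact hdP)
  have hP1 : P (Fin.castSucc j1) = 1 := by rw [hPj, hy1, map_one]
  have hgen : IntermediateField.adjoin K {x : E | ∃ i j, x = P i / P j} = ⊤ := by
    refine gen_all y hy z hadj _ (fun j => ?_) ?_
    · refine IntermediateField.subset_adjoin K _ ⟨Fin.castSucc j, Fin.castSucc j1, ?_⟩
      rw [hP1, div_one, hPj]
    · refine IntermediateField.subset_adjoin K _ ⟨Fin.last _, Fin.castSucc j1, ?_⟩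
      rw [hP1, div_one, hPl]
  have fKM : Module.Finite K M := Module.Finite.of_restrictScalars_finite ℚ K M
  have fKE : Module.Finite K E := Module.Finite.of_restrictScalars_finite ℚ K E
  have hKE : Module.finrank K M * Module.finrank M E = Module.finrank K E :=
    Module.finrank_mul_finrank K M E
  have hdegr : Module.finrank K E ≤ r := by
    refine le_trans ?_ hr
    rw [← hKE, mul_comm]
    refine Nat.mul_le_mul hdegE (hdegM.trans (le_of_eq ?_))
    have e1 : (d + 0) / m + s = d / m + (n + 2 + s - n - 2) := by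
      rw [add_zero]
      omega
    have e2 : n + 1 + s = n + 2 + s - 1 := by omega
    rw [e1, e2]
  have hP0 : P ≠ 0 := by
    intro h0
    rw [h0] at hP1
    exact zero_ne_one hP1
  have h1 := H E P hP0 hOn hgen hdegr hGP
  have s2 := hcov' ∅ (fun w hw => absurd hw (Finset.notMem_empty w))
  rw [Finset.sum_empty, add_zero] at s2
  have s4 := hmain Vb (by
    intro v hv
    rw [hVb, Set.Finite.mem_toFinset] at hv
    obtain ⟨k, j, hk⟩ := hv
    exact ⟨k, Or.inl ⟨j, hk⟩⟩)
  have s5 : ∑ v ∈ V, ell v ≤ ∑ v ∈ Vb, ell v + Module.finrank ℚ M * Real.log N1 := by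
    have h2 := Finset.sum_union_inter (s₁ := Vb) (s₂ := VN) (f := fun w => ell w)
    have h3 : 0 ≤ ∑ w ∈ Vb ∩ VN, ell w := Finset.sum_nonneg fun w _ => (ell_pos w).le
    have h4 := Pool.Agent.H431.EC.sum_bad hN1 VN (fun v hv => by
      rw [hVN, Set.Finite.mem_toFinset] at hv
      exact hv)
    rw [hV]
    linarith
  have s6 : Module.finrank M E * Height.logHeight y ≤ Height.logHeight P +
      Module.finrank ℚ E * C3 := by
    have h2 := HL E P
    have h3 : (fun j : Fin (n + 2 + s) => ∑ i, algebraMap K E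
        (if i = j.castSucc then 1 else 0) * P i) = fun j => algebraMap M E (y j) := by
      funext j
      rw [Finset.sum_eq_single (Fin.castSucc j)]
      · rw [if_pos rfl, map_one, one_mul, hPj]
      · intro i _ hi
        rw [if_neg hi, map_zero, zero_mul]
      · intro h
        exact absurd (Finset.mem_univ _) h
    rw [h3, Pool.Agent.Helper259.HtExt.logHeight_ext] at h2
    exact h2
  unfold logDisc height at h1
  have hp : (0 : ℝ) < Module.finrank K E := by exact_mod_cast Module.finrank_pos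
  have h4 := mul_le_mul_of_nonneg_right h1 hp.le
  have hN1' : ((N - 1 : ℕ) : ℝ) = (N : ℝ) - 1 := by
    rw [Nat.cast_sub hN, Nat.cast_one]
  have e0 : c1 = ((N : ℝ) - 1) + c := by
    rw [hcd]
    ring
  rw [e0] at h4
  have e1 : (((N : ℝ) - 1) + c) * (Height.logHeight P / (Module.finrank K E : ℝ)) *
      Module.finrank K E = (((N : ℝ) - 1) + c) * Height.logHeight P := by
    field_simp
  have e2 : ((Real.log |(NumberField.discr E : ℝ)| / Module.finrank K E -
        Real.log |(NumberField.discr K : ℝ)|) + C) * Module.finrank K E =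
      Real.log |(NumberField.discr E : ℝ)| +
        Module.finrank K E * (C - Real.log |(NumberField.discr K : ℝ)|) := by
    field_simp
    ring
  rw [e1, e2] at h4
  -- the final computation
  obtain ⟨p, hpp⟩ : ∃ p : ℝ, p = (Module.finrank M E : ℝ) := ⟨_, rfl⟩
  have hp0 : 0 < p := by
    rw [hpp]
    exact_mod_cast Module.finrank_pos
  have r1 : (Module.finrank K E : ℝ) = Module.finrank K M * p := by
    rw [hpp]
    exact_mod_cast hKE.symm
  have r2 : (Module.finrank ℚ E : ℝ) = Module.finrank ℚ K * (Module.finrank K M * p) := by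
    rw [← r1]
    exact_mod_cast (Module.finrank_mul_finrank ℚ K E).symm
  have r3 : (Module.finrank ℚ M : ℝ) = Module.finrank ℚ K * Module.finrank K M := by
    exact_mod_cast (Module.finrank_mul_finrank ℚ K M).symm
  obtain ⟨hE, hhE⟩ : ∃ hE : ℝ, hE = Height.logHeight P := ⟨_, rfl⟩
  obtain ⟨hM, hhM⟩ : ∃ hM : ℝ, hM = Height.logHeight y := ⟨_, rfl⟩
  obtain ⟨dE, hdE⟩ : ∃ dE : ℝ, dE = DD E := ⟨_, rfl⟩
  obtain ⟨dM, hdM⟩ : ∃ dM : ℝ, dM = DD M := ⟨_, rfl⟩
  obtain ⟨dK, hdK⟩ : ∃ dK : ℝ, dK = DD K := ⟨_, rfl⟩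
  have dE' : Real.log |(NumberField.discr E : ℝ)| = dE := hdE.symm
  have dK' : Real.log |(NumberField.discr K : ℝ)| = dK := hdK.symm
  rw [dE', dK', r1, ← hhE] at h4
  rw [← hdE, ← hdM, hN1', ← hpp, ← hhE, r2] at s2
  rw [← hdM, ← hdK, ← hhM, Nat.cast_zero, zero_add] at s4
  rw [r3] at s5
  rw [← hpp, ← hhE, ← hhM, r2] at s6
  have u4 := mul_lt_mul_of_pos_left s4 hp0
  have u5 := mul_le_mul_of_nonneg_left s5 hp0.le
  have u6 := mul_le_mul_of_nonneg_left s6 hc0.le
  obtain ⟨sV, hsV⟩ : ∃ x : ℝ, x = ∑ w ∈ V, ell w := ⟨_, rfl⟩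
  obtain ⟨sB, hsb⟩ : ∃ x : ℝ, x = ∑ w ∈ Vb, ell w := ⟨_, rfl⟩
  rw [← hsV] at s2 u5
  rw [← hsb] at u4 u5
  linarith

end Pool.Agent.Results.MP_9b9442_nt.CoveringsOfDiagonalIntersections
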