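import Pool.Agent.H461.Cyc.LowPow
import Pool.Agent.H461.Cyc.Disc
import Pool.Agent.H461.Low.Up

/-!
# Vojta's conjecture for the points of degree at most `m` of cyclic covers of the line: the exact
# exponent of the number of the exceptional fibres, in total and near every point

Let `F` be a binary form over `ℤ` of degree `q ≥ 3` without multiple factor and `X_m`, for `m ∣ q`,
the smooth projective curve `y ^ m = F(x, 1)`. Over a rational number `x = a / b` in lowest terms
lie the points `P = (x, y / b ^ (q / m))`, `y ^ m = F(a, b)`, with `ℚ(P) = ℚ(y)`, of degree at most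
`m`. The curve is totally ramified over the `q` zeros of `F`, so `K_X` is numerically the pull-back
of `q (1 - 1 / m) - 2` points, and the inequality
`(q (1 - 1 / m) - κ) h(x) ≤ d(P) + c` is `h_K(P) + (2 - κ) h(x) ≤ d(P) + c`.
-/

set_option autoImplicit false

namespace Pool.Agent.Results.MP_9b9442_nt.CyclicFibresExact

open Polynomial IntermediateField

/-- the binary form `∑ f_j X ^ j Z ^ (q - j)` of degree `q`, at the numerator and denominator of
`x` -/
def form (f : ℤ[X]) (q : ℕ) (x : ℚ) : ℤ :=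
  ∑ j ∈ Finset.range (q + 1), f.coeff j * x.num ^ j * (x.den : ℤ) ^ (q - j)

/-- the binary form of degree `q` attached to `f` has no multiple factor -/
def Reduced (f : ℤ[X]) (q : ℕ) : Prop :=
  Squarefree (f.map (Int.castRingHom ℚ)) ∧ f.natDegree ≤ q ∧ q ≤ f.natDegree + 1

/-- the logarithmic height of a rational number -/
noncomputable def height (x : ℚ) : ℝ := Real.log ((max x.num.natAbs x.den : ℕ) : ℝ)

open Classical in
/-- the logarithmic discriminant of the field `ℚ(y)` -/
noncomputable def logDisc (y : ℂ) : ℝ :=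
  if _ : NumberField ℚ⟮y⟯ then
    Real.log |(NumberField.discr ℚ⟮y⟯ : ℝ)| / Module.finrank ℚ ℚ⟮y⟯ else 0

/-- the point `y` with `y ^ m = F(x)` violates the inequality
`(q (1 - 1 / m) - κ) h(x) ≤ d(ℚ(y)) + c` -/
def Violates (q m : ℕ) (κ c : ℝ) (x : ℚ) (y : ℂ) : Prop :=
  logDisc y + c < ((q : ℝ) * (1 - 1 / m) - κ) * height x

/-- the rational numbers with distance less than `η` from `t₀`, whose numerators and denominators
are congruent to those of `t₀` modulo `Q` -/
def close (t₀ : ℚ) (Q : ℕ) (η : ℝ) : Set ℚ :=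
  {x : ℚ | |(x : ℝ) - t₀| < η ∧ (Q : ℤ) ∣ x.num - t₀.num ∧ (Q : ℤ) ∣ (x.den : ℤ) - t₀.den}

/-- the rational numbers of height at most `log B` for which ALL points of `X_m` above `x` violate
the inequality -/
def allViolate (f : ℤ[X]) (q m : ℕ) (κ c B : ℝ) : Set ℚ :=
  {x : ℚ | form f q x ≠ 0 ∧ height x ≤ Real.log B ∧
    ∀ y : ℂ, y ^ m = (form f q x : ℂ) → Violates q m κ c x y}

/-- the rational numbers of height at most `log B` for which SOME point above `x` on SOME of the
curves `X_m`, `m ≥ 2`, violates the inequality -/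
def someViolates (f : ℤ[X]) (q : ℕ) (κ c B : ℝ) : Set ℚ :=
  {x : ℚ | form f q x ≠ 0 ∧ height x ≤ Real.log B ∧
    ∃ m : ℕ, 2 ≤ m ∧ ∃ y : ℂ, y ^ m = (form f q x : ℂ) ∧ Violates q m κ c x y}

theorem height_eq (x : ℚ) : height x = Real.log (max |(x.num : ℝ)| |((x.den : ℤ) : ℝ)|) := by
  unfold height
  rw [Nat.cast_max, Nat.cast_natAbs, Int.cast_abs]
  simp only [Int.cast_natCast]
  rw [abs_of_nonneg (Nat.cast_nonneg (α := ℝ) x.den)]

theorem one_le_max (x : ℚ) : 1 ≤ max |(x.num : ℝ)| |((x.den : ℤ) : ℝ)| := by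
  refine le_trans ?_ (le_max_right _ _)
  have h1 : (1 : ℤ) ≤ |(x.den : ℤ)| := Int.one_le_abs (by exact_mod_cast x.den_nz)
  exact_mod_cast h1

theorem num_inj : Function.Injective (fun x : ℚ => ((x.num, (x.den : ℤ)) : ℤ × ℤ)) := by
  intro x x' h
  simp only [Prod.mk.injEq] at h
  apply Rat.ext h.1
  exact_mod_cast h.2

theorem bounded_finite (B : ℝ) (hB : 1 ≤ B) : {x : ℚ | height x ≤ Real.log B}.Finite := by
  refine Set.Finite.of_finite_image (f := fun x : ℚ => ((x.num, (x.den : ℤ)) : ℤ × ℤ)) ?_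
    num_inj.injOn
  refine ((Finset.finite_toSet (Finset.Icc (-⌈B⌉) ⌈B⌉ ×ˢ Finset.Icc (-⌈B⌉) ⌈B⌉))).subset ?_
  rintro _ ⟨x, hx, rfl⟩
  rw [Set.mem_ofPred_eq, height_eq] at hx
  have h0 : 0 < max |(x.num : ℝ)| |((x.den : ℤ) : ℝ)| := by linarith [one_le_max x]
  have h1 := (Real.log_le_log_iff h0 (by linarith)).mp hx
  have h2 : max |(x.num : ℝ)| |((x.den : ℤ) : ℝ)| ≤ (⌈B⌉ : ℝ) := h1.trans (Int.le_ceil _)
  have b1 := (le_max_left _ _).trans h2
  have b2 := (le_max_right _ _).trans h2
  rw [Finset.mem_coe, Finset.mem_product, Finset.mem_Icc, Finset.mem_Icc]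
  refine ⟨abs_le.mp ?_, abs_le.mp ?_⟩
  · exact_mod_cast b1
  · show |(x.den : ℤ)| ≤ ⌈B⌉
    exact_mod_cast b2

theorem size (f : ℤ[X]) (q : ℕ) : ∃ C : ℝ, 1 ≤ C ∧ ∀ x : ℚ, form f q x ≠ 0 →
    Real.log |(form f q x : ℝ)| ≤ Real.log C + q * height x := by
  obtain ⟨C, hC, h⟩ := Pool.Agent.W505.VC.t_HOM.2.1 f q
  refine ⟨C, hC, fun x hx => ?_⟩
  have h1 : |(form f q x : ℝ)| ≤ C * (max |(x.num : ℝ)| |((x.den : ℤ) : ℝ)|) ^ q :=
    h x.num (x.den : ℤ)
  have h0 : 0 < max |(x.num : ℝ)| |((x.den : ℤ) : ℝ)| := by linarith [one_le_max x]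
  have h2 := Real.log_le_log (by
    rw [abs_pos]
    exact_mod_cast hx) h1
  rw [Real.log_mul (by linarith) (by positivity), Real.log_pow, ← height_eq] at h2
  exact h2

/-- **Theorem.** Let `F` be a binary form of degree `q ≥ 3` over `ℤ` without multiple factor, and
`c` real.

(1) Let `m ≥ 2` and `0 ≤ κ < 2 (m - 1) / (2 m - 1)`, for example `κ < 2 / 3`. Near every rational
number `t₀` which is not a zero of `F`, at the real place and at any finite places, the number of
the rational numbers `x` of height at most `B` such that ALL points `P` of `X_m` above `x` violate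
`h_K(P) + (2 - κ) h(x) ≤ d(P) + c` is at least `B ^ (2 - κ - δ)` up to a constant, for every `δ > 0`.

(2) Let the irreducible factors of `F` have degree at most three and `0 ≤ κ ≤ 2 / 3`, or let `F` be
an irreducible cubic form and `0 ≤ κ ≤ 4 / 5`. For every `δ > 0` there are at most
`C B ^ (2 - κ + δ)` rational numbers `x` of height at most `B` such that SOME point `P` above `x`
of SOME of the curves `X_m`, `m ≥ 2`, violates this inequality. -/
theorem result (f : ℤ[X]) (q : ℕ) (hq : 3 ≤ q) (hF : Reduced f q) (c : ℝ) :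
    (∀ m : ℕ, 2 ≤ m → ∀ κ : ℝ, 0 ≤ κ → κ < 2 * (m - 1) / (2 * m - 1) →
      ∀ t₀ : ℚ, form f q t₀ ≠ 0 → ∀ (Q : ℕ) (η : ℝ), 1 ≤ Q → 0 < η → ∀ δ : ℝ, 0 < δ →
        ∃ C : ℝ, 0 < C ∧ ∃ B₀ : ℝ, ∀ B : ℝ, B₀ ≤ B →
          C * B ^ (2 - κ - δ) ≤ ((allViolate f q m κ c B ∩ close t₀ Q η).ncard : ℝ)) ∧
    ∀ κ : ℝ, 0 ≤ κ →
      (((∀ p : ℚ[X], Irreducible p → p ∣ f.map (Int.castRingHom ℚ) → p.natDegree ≤ 3) ∧
          κ ≤ 2 / 3) ∨
        (q = 3 ∧ f.natDegree = 3 ∧ Irreducible (f.map (Int.castRingHom ℚ)) ∧ κ ≤ 4 / 5)) →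
      ∀ δ : ℝ, 0 < δ → ∃ C : ℝ, ∀ B : ℝ, 1 ≤ B → (someViolates f q κ c B).Finite ∧
        ((someViolates f q κ c B).ncard : ℝ) ≤ C * B ^ (2 - κ + δ) := by
  classical
  obtain ⟨hsq, hdeg1, hdeg2⟩ := hF
  obtain ⟨CF, hCF, hsize⟩ := size f q
  have hfv : ∀ x : ℚ, Pool.Agent.Y670.RD.fv q f x.num (x.den : ℤ) = form f q x := fun x => rfl
  refine ⟨?_, ?_⟩
  · intro m hm κ hκ0 hκ t₀ ht₀ Q η hQ hη δ hδ
    have hmR : (2 : ℝ) ≤ m := by exact_mod_cast hm
    have h0 : aeval (t₀ : ℝ) f ≠ 0 := by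
      intro h1
      apply ht₀
      have h3 : (Pool.Agent.Y670.RD.fv q f t₀.num (t₀.den : ℤ) : ℝ) =
          (((t₀.den : ℤ)) : ℝ) ^ q * aeval ((t₀.num : ℝ) / ((t₀.den : ℤ) : ℝ)) f :=
        Pool.Agent.Y670.RD.fv_eq hdeg1 (by exact_mod_cast t₀.den_nz)
      have h4 : (t₀ : ℝ) = (t₀.num : ℝ) / ((t₀.den : ℤ) : ℝ) := by
        push_cast
        exact Rat.cast_def t₀
      rw [← h4, h1, mul_zero, hfv] at h3
      exact_mod_cast h3
    -- the exponent
    have h2m : 0 < 2 * (m : ℝ) - 1 := by linarith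
    rw [lt_div_iff₀ h2m] at hκ
    obtain ⟨κ', hκ'⟩ : ∃ κ' : ℝ, κ' = κ + min (δ / 2) ((2 * (m - 1) - κ * (2 * m - 1)) /
      (2 * (2 * m - 1))) := ⟨_, rfl⟩
    have hμ : 0 < min (δ / 2) ((2 * ((m : ℝ) - 1) - κ * (2 * m - 1)) / (2 * (2 * m - 1))) := by
      apply lt_min (by positivity)
      apply div_pos (by linarith) (by linarith)
    have hκ'1 : κ' ≤ κ + δ / 2 := by
      have h1 := min_le_left (δ / 2) ((2 * ((m : ℝ) - 1) - κ * (2 * m - 1)) / (2 * (2 * m - 1)))
      rw [hκ']
      linarith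
    have hκ'2 : κ' * (2 * m - 1) < 2 * (m - 1) := by
      have h1 := min_le_right (δ / 2) ((2 * ((m : ℝ) - 1) - κ * (2 * m - 1)) / (2 * (2 * m - 1)))
      have h2 : κ' ≤ κ + (2 * ((m : ℝ) - 1) - κ * (2 * m - 1)) / (2 * (2 * m - 1)) := by
        rw [hκ']
        linarith
      have h3 := mul_le_mul_of_nonneg_right h2 h2m.le
      have h4 : (κ + (2 * ((m : ℝ) - 1) - κ * (2 * m - 1)) / (2 * (2 * m - 1))) * (2 * m - 1) =
          κ * (2 * m - 1) + (2 * ((m : ℝ) - 1) - κ * (2 * m - 1)) / 2 := by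
        field_simp
      rw [h4] at h3
      linarith
    have hκκ' : κ < κ' := by rw [hκ']; linarith
    have hm1 : 0 < 2 * ((m : ℝ) - 1) := by linarith
    obtain ⟨ν, hν⟩ : ∃ ν : ℝ, ν = κ' / (2 * (m - 1)) := ⟨_, rfl⟩
    have hν0 : 0 < ν := by
      rw [hν]
      exact div_pos (by linarith) hm1
    have hνκ : 2 * (m - 1) * ν = κ' := by
      rw [hν, ← mul_div_assoc]
      exact mul_div_cancel_left₀ κ' hm1.ne'
    have hνm : (2 * m - 1) * ν < 1 := by
      rw [hν, ← mul_div_assoc, div_lt_one hm1]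
      linarith
    obtain ⟨d, hd⟩ : ∃ d : ℝ, d = min (δ / 2) (min ν (1 - (2 * m - 1) * ν)) := ⟨_, rfl⟩
    have hd0 : 0 < d := by
      rw [hd]
      exact lt_min (by positivity) (lt_min hν0 (by linarith))
    have hdδ : d ≤ δ / 2 := by rw [hd]; exact min_le_left _ _
    have hdν : d ≤ ν := by rw [hd]; exact (min_le_right _ _).trans (min_le_left _ _)
    have hdm : d ≤ 1 - (2 * m - 1) * ν := by
      rw [hd]
      exact (min_le_right _ _).trans (min_le_right _ _)
    obtain ⟨C, B₀, hC, hlow⟩ := Pool.Agent.H461.Cyc.low_pow f q hsq (by omega) hdeg1 t₀ h0 Q hQ η hη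
      m hm ν hν0 hνm (Real.exp (Real.log m + Real.log CF + c + 1)) d hd0 hdν hdm
    refine ⟨C, hC, max B₀ 1, fun B hB => ?_⟩
    have hB1 : 1 ≤ B := (le_max_right _ _).trans hB
    have hB0 : 0 < B := by linarith
    obtain ⟨S, hSc, hSp⟩ := hlow B ((le_max_left _ _).trans hB)
    have hexp : C * B ^ (2 - κ - δ) ≤ C * B ^ (2 - 2 * (m - 1) * ν - d) := by
      refine mul_le_mul_of_nonneg_left (Real.rpow_le_rpow_of_exponent_le hB1 ?_) hC.le
      rw [hνκ]
      linarith
    refine (hexp.trans hSc).trans ?_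
    have hfin : (allViolate f q m κ c B ∩ close t₀ Q η).Finite := by
      refine (bounded_finite B hB1).subset ?_
      intro x hx
      exact hx.1.2.1
    have hnd : ∀ p ∈ S, ((p.1 : ℚ) / (p.2 : ℚ)).num = p.1 ∧
        (((p.1 : ℚ) / (p.2 : ℚ)).den : ℤ) = p.2 := by
      intro p hp
      obtain ⟨h1, h2, -⟩ := hSp p hp
      have hcop : Nat.Coprime p.1.natAbs p.2.natAbs := Int.isCoprime_iff_gcd_eq_one.mp h1
      exact ⟨Rat.num_div_eq_of_coprime h2 hcop, Rat.den_div_eq_of_coprime h2 hcop⟩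
    have himg : ∀ p ∈ S, ((p.1 : ℚ) / (p.2 : ℚ)) ∈ allViolate f q m κ c B ∩ close t₀ Q η := by
      intro p hp
      obtain ⟨h1, h2, h3, h4, h5, h6, h7, n, k, hn, hnk, hA⟩ := hSp p hp
      obtain ⟨e1, e2⟩ := hnd p hp
      obtain ⟨x, hx⟩ : ∃ x : ℚ, x = (p.1 : ℚ) / (p.2 : ℚ) := ⟨_, rfl⟩
      rw [← hx] at e1 e2 ⊢
      have hxR : (x : ℝ) = (p.1 : ℝ) / (p.2 : ℝ) := by
        rw [hx]
        push_cast
        rfl
      have hfx : form f q x = n ^ m * k := by
        rw [← hfv, e1, e2]
        exact hnk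
      have hx0 : form f q x ≠ 0 := by
        rw [← hfv, e1, e2]
        exact h7
      have hh : height x ≤ Real.log B := by
        rw [height_eq, e1, e2]
        refine Real.log_le_log ?_ h6
        have := one_le_max x
        rw [e1, e2] at this
        linarith
      have hh0 : 0 ≤ height x := by
        rw [height_eq]
        exact Real.log_nonneg (one_le_max x)
      refine ⟨⟨hx0, hh, ?_⟩, ?_, ?_, ?_⟩
      · intro y hy
        have hk : k ≠ 0 := by
          rintro rfl
          rw [mul_zero] at hfx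
          exact hx0 hfx
        have g1 := Pool.Agent.H461.Cyc.LD_pow (y := y) (l := n) (k := k) (m := m) (by omega) hn.ne'
          hk (by rw [hy, hfx])
        have g2 : Pool.Agent.H461.Cyc.LD ℚ⟮y⟯ = logDisc y := rfl
        rw [g2] at g1
        have hnR : (0 : ℝ) < n := by exact_mod_cast hn
        have hkR : 0 < |(k : ℝ)| := by
          rw [abs_pos]
          exact_mod_cast hk
        have g3 := hsize x hx0
        rw [hfx] at g3
        push_cast at g3
        rw [abs_mul, abs_of_pos (pow_pos hnR m), Real.log_mul (by positivity) hkR.ne',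
          Real.log_pow] at g3
        have g4 := Real.log_le_log (by positivity) hA
        rw [Real.log_mul (Real.exp_pos _).ne' (by positivity), Real.log_exp, Real.log_pow,
          Real.log_rpow hB0, Nat.cast_sub (by omega : 1 ≤ m), Nat.cast_one, hνκ] at g4
        have g5 : κ * height x ≤ κ' * Real.log B :=
          mul_le_mul hκκ'.le hh hh0 (by linarith)
        have hm0 : (0 : ℝ) < m := by linarith
        have g6 : ((m : ℝ) - 1) / m * Real.log |(k : ℝ)| ≤
            ((m : ℝ) - 1) / m * (Real.log CF + q * height x - m * Real.log n) :=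
          mul_le_mul_of_nonneg_left (by linarith) (div_nonneg (by linarith) hm0.le)
        have g7 : ((m : ℝ) - 1) / m * (Real.log CF + q * height x - m * Real.log n) =
            (1 - 1 / m) * Real.log CF + q * (1 - 1 / m) * height x - (m - 1) * Real.log n := by
          field_simp
        have g8 : (1 - 1 / (m : ℝ)) * Real.log CF ≤ Real.log CF := by
          have : 0 ≤ Real.log CF := Real.log_nonneg hCF
          have h9 : (1 - 1 / (m : ℝ)) ≤ 1 := by
            have : 0 ≤ 1 / (m : ℝ) := by positivity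
            linarith
          calc (1 - 1 / (m : ℝ)) * Real.log CF ≤ 1 * Real.log CF :=
                mul_le_mul_of_nonneg_right h9 this
            _ = Real.log CF := one_mul _
        unfold Violates
        rw [sub_mul]
        linarith
      · show |(x : ℝ) - t₀| < η
        rw [hxR]
        exact h3
      · show (Q : ℤ) ∣ x.num - t₀.num
        rw [e1]
        exact h4
      · show (Q : ℤ) ∣ (x.den : ℤ) - t₀.den
        rw [e2]
        exact h5
    have hinj : Set.InjOn (fun p : ℤ × ℤ => (p.1 : ℚ) / (p.2 : ℚ)) (S : Set (ℤ × ℤ)) := by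
      intro p hp p' hp' h
      obtain ⟨e1, e2⟩ := hnd p hp
      obtain ⟨e3, e4⟩ := hnd p' hp'
      simp only at h
      rw [h] at e1 e2
      exact Prod.ext (e1.symm.trans e3) (e2.symm.trans e4)
    rw [Set.ncard_eq_toFinset_card _ hfin, ← Finset.card_image_of_injOn hinj]
    refine Nat.cast_le.mpr (Finset.card_le_card ?_)
    intro x hx
    obtain ⟨p, hp, rfl⟩ := Finset.mem_image.mp hx
    exact hfin.mem_toFinset.mpr (himg p hp)
  · intro κ hκ hcase δ hδ
    have hq3 : (3 : ℝ) ≤ q := by exact_mod_cast hq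
    have hκ1 : κ ≤ 4 / 5 := by
      rcases hcase with h | h
      · linarith [h.2]
      · exact h.2.2.2
    have hdy : Pool.Agent.H461.Low.Dyad f q κ := by
      rcases hcase with ⟨h3, h4⟩ | ⟨h1, h2, h3, h4⟩
      · exact Pool.Agent.H461.Low.dyad_main f q (by omega) ⟨hsq, hdeg1, hdeg2⟩ h3 κ hκ h4
      · subst h1
        exact Pool.Agent.H461.Low.dyad_cubic f h2 h3 κ hκ h4
    obtain ⟨A, hA⟩ : ∃ A : ℝ, A = Real.exp (|c| + Real.log CF) := ⟨_, rfl⟩
    have hlCF : 0 ≤ Real.log CF := Real.log_nonneg hCF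
    have hA1 : 1 ≤ A := by
      rw [hA]
      apply Real.one_le_exp
      positivity
    obtain ⟨C, -, hup⟩ := Pool.Agent.H461.Low.up f q κ (by linarith) (by linarith) hdy A hA1 1 le_rfl
      δ hδ
    refine ⟨C, fun B hB => ?_⟩
    have hfin : (someViolates f q κ c B).Finite :=
      (bounded_finite B hB).subset fun x hx => hx.2.1
    refine ⟨hfin, ?_⟩
    rw [Set.ncard_eq_toFinset_card _ hfin, ← Finset.card_image_of_injective _ num_inj]
    apply hup B hB
    intro p hp
    obtain ⟨x, hx, rfl⟩ := Finset.mem_image.mp hp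
    rw [Set.Finite.mem_toFinset] at hx
    obtain ⟨hx1, hx2, m, hm, y, hy, hv⟩ := hx
    have hm1 := one_le_max x
    have hm0 : 0 < max |(x.num : ℝ)| |((x.den : ℤ) : ℝ)| := by linarith
    have hxB : max |(x.num : ℝ)| |((x.den : ℤ) : ℝ)| ≤ B := by
      rw [height_eq] at hx2
      exact (Real.log_le_log_iff hm0 (by linarith)).mp hx2
    refine ⟨?_, (le_max_left _ _).trans hxB, (le_max_right _ _).trans hxB, hx1, ?_⟩
    · rw [Int.isCoprime_iff_gcd_eq_one]
      exact x.reduced
    · have : NumberField ℚ⟮y⟯ := Pool.Agent.H813R3.Voj.numberField_of_powM (by omega) hy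
      have g1 := Pool.Agent.H461.Cyc.log_rad (by omega : 0 < m) hx1 hy
      have g2 : Real.log |(NumberField.discr ℚ⟮y⟯ : ℝ)| / Module.finrank ℚ ℚ⟮y⟯ = logDisc y := by
        unfold logDisc
        rw [dif_pos this]
      rw [g2] at g1
      have g3 := hsize x hx1
      have hmR : (2 : ℝ) ≤ m := by exact_mod_cast hm
      have hm00 : (0 : ℝ) < m := by linarith
      have hh0 : 0 ≤ height x := by
        rw [height_eq]
        exact Real.log_nonneg hm1
      unfold Violates at hv
      have g4 : Real.log |(form f q x : ℝ)| / m ≤ Real.log CF + q * (1 / m) * height x := by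
        calc Real.log |(form f q x : ℝ)| / m ≤ (Real.log CF + q * height x) / m :=
              div_le_div_of_nonneg_right g3 hm00.le
          _ = Real.log CF / m + q * (1 / m) * height x := by ring
          _ ≤ _ := by
            have : Real.log CF / m ≤ Real.log CF := div_le_self hlCF (by linarith)
            linarith
      have g5 : ∑ p ∈ (form f q x).natAbs.primeFactors, Real.log (p : ℝ) ≤
          |c| + Real.log CF + (q - κ) * height x := by
        have hc := neg_abs_le c
        have e : ((q : ℝ) * (1 - 1 / m) - κ) * height x + q * (1 / m) * height x =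
            (q - κ) * height x := by ring
        linarith
      have g6 : (Pool.Agent.W4.CF.radp 1 (form f q x).natAbs : ℝ) =
          ∏ p ∈ (form f q x).natAbs.primeFactors, (p : ℝ) := by
        unfold Pool.Agent.W4.CF.radp
        push_cast
        refine Finset.prod_congr ?_ fun _ _ => rfl
        rw [Finset.filter_eq_self]
        intro p hp hp1
        exact (Nat.prime_of_mem_primeFactors hp).one_lt.ne' (Nat.dvd_one.mp hp1)
      have g7 : (Pool.Agent.W4.CF.radp 1 (Pool.Agent.W4.VC.hom f q x.num (x.den : ℤ)).natAbs : ℝ) =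
          ∏ p ∈ (form f q x).natAbs.primeFactors, (p : ℝ) := g6
      show (Pool.Agent.W4.CF.radp 1 (Pool.Agent.W4.VC.hom f q x.num (x.den : ℤ)).natAbs : ℝ) ≤
        A * (max |(x.num : ℝ)| |((x.den : ℤ) : ℝ)|) ^ ((q : ℝ) - κ)
      rw [g7]
      have g8 : 0 < ∏ p ∈ (form f q x).natAbs.primeFactors, (p : ℝ) :=
        Finset.prod_pos fun l hl => by
          exact_mod_cast (Nat.prime_of_mem_primeFactors hl).pos
      rw [← Real.log_le_log_iff g8 (by positivity), Real.log_mul (by positivity) (by positivity),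
        Real.log_rpow hm0, ← height_eq, hA, Real.log_exp, Real.log_prod]
      · exact g5
      · intro l hl
        exact_mod_cast (Nat.prime_of_mem_primeFactors hl).ne_zero

end Pool.Agent.Results.MP_9b9442_nt.CyclicFibresExact
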