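import Pool.Agent.H905.OP.MainC
import Pool.Graph.R_pool_sql_team_seeded_63374d34.N783.PF.Jac

/-!
# The algebraic points of degree at most `2 g` on a positive proportion of all odd hyperelliptic curves over
# every number field

Let `F` be any number field and `g ≥ 1`. We consider ALL polynomials
`f = x ^ (2 g + 1) + a_(2 g - 1) x ^ (2 g - 1) + ... + a_0` with coefficients in the ring of integers of `F`,
ordered by the height: `|σ a_i| ≤ B ^ (2 g + 1 - i)` for all embeddings `σ : F → ℂ`. (Every hyperelliptic
curve of genus `g` over `F` with a rational Weierstrass point has an equation `y ^ 2 = f(x)` with such an `f`.)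
Let `C` be the smooth projective curve `y ^ 2 = f(x)`, `∞` its point at infinity, `J` its Jacobian.

Theorem. For a positive proportion of the `f`:
* `f` is irreducible over `F` and `J(F) = 0` (the coordinate ring `F[x, y] / (y ^ 2 - f)` has trivial Picard
  group; it is a principal ideal domain);
* the 2-primary part of the Tate-Shafarevich group of `J` over `F` is zero;
* every algebraic point `P = (a, b)` of `C` of degree at most `2 g` over `F` is the pull-back of a closed point of
  the line: `b` is not in `F(a)`, so that the degree of `P` is twice the degree of `a = x(P)`;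
* there are no points other than `∞` over the extensions of `F` of odd degree `≤ 2 g - 1`; in particular
  `C(F) = {∞}`.
The bound `2 g` is optimal for every `f` of this kind: the Weierstrass points `(θ, 0)` have degree `2 g + 1`.

So for these curves, with `Z` empty, Vojta's inequality (Q1, `X = C`, `d = 2 g`) is true for the points of
odd degree `< 2 g + 1`, and for all the points of degree `≤ 2 g` it is a statement on the values of
one polynomial (the square-free part of `f(a)` for `a` of degree `≤ g`).

Proof. Let `v` be a prime over `2` and `ϖ` in `v` but not in `v ^ 2`. The scheme `y ^ 2 = f(x)` is regular at the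
points over `v` if `f = x h ^ 2 + k ^ 2 + ϖ m` where `m = 1` modulo `(h, v)`. The new part of
the proof is a local theorem about these `f` (`Pool/Agent/H905/OP/Zero.lean`): if `O` is a discrete valuation ring
with residue characteristic two (not complete, any residue field) and `f` is regular in this sense then
the only class in the class group of `k[x, y] / (y ^ 2 - f)`, `k` the field of fractions of `O`, which is
divisible by `2 ^ n` for all `n` is the trivial class. (For complete `O` this is a theorem on the group of
points of the formal group; here there is no completion, and the class group of `k` is not known to be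
finitely generated.) It is proved with lattices over two
localisations of `O[x]` and `O[1/x]` which are stable under multiplication by `y`: modulo `v` the curve is
a purely inseparable covering of the line, so that the relations between such lattices are generated by
ideals of the line and by squares, and a class which is divisible by `2 ^ n` is close to a principal one.
The global part is project PF of helper783 (Results/MP_1d384c_nt/JacobiansNumberFields.lean in the library): the
2-Selmer group is zero for a positive proportion of the `f`. The count is done here in the residue class of an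
arbitrary polynomial modulo a large integer; the twists which occur in the proof are by numbers
which are one modulo eight, so that the condition of regularity is preserved. Then `J(F)` is uniquely 2-divisible
and hence zero.
-/

set_option autoImplicit false
set_option linter.all false

namespace Pool.Agent.Results.MP_9b9442_nt.SmallDegreePoints

open Polynomial Filter IsDedekindDomain NumberField IntermediateField
open Pool.Agent.N874.Jac (J ShaTwoTrivialReal)
open scoped Classical

section defs

variable {F : Type} [Field F] [NumberField F]

/-- `f` is a monic polynomial of degree `2 g + 1` with integral coefficients, without term of degree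
`2 g`, and of height at most `B`: all conjugates of the coefficient of degree `j` are at most
`B ^ (2 g + 1 - j)` in absolute value. -/
structure IsPoly (g B : ℕ) (f : (𝓞 F)[X]) : Prop where
  monic : f.Monic
  degree : f.natDegree = 2 * g + 1
  trace : f.coeff (2 * g) = 0
  height : ∀ j ≤ 2 * g, ∀ σ : F →+* ℂ, ‖σ (f.coeff j : F)‖ ≤ (B : ℝ) ^ (2 * g + 1 - j)

variable (F)

/-- The polynomials `f` of height at most `B`. -/
def Polys (g B : ℕ) : Set (𝓞 F)[X] := {f | IsPoly g B f}

variable {F}

/-- Every algebraic point `(a, b)` of `y ^ 2 = P(x)` over an extension `K` of `F` of degree at most `n` is the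
pull-back of a point of the line: `b` is not in `F(a)`. -/
def PulledBack (P : F[X]) (n : ℕ) : Prop :=
  ∀ (K : Type) [Field K] [Algebra F K] [FiniteDimensional F K], Module.finrank F K ≤ n →
    ∀ a b : K, b ^ 2 = aeval a P → b ∉ F⟮a⟯

/-- The curve `y ^ 2 = P(x)` has no point except the point at infinity over any extension `K` of `F` of odd
degree at most `n`. -/
def NoOddPoints (P : F[X]) (n : ℕ) : Prop :=
  ∀ (K : Type) [Field K] [Algebra F K] [FiniteDimensional F K], Module.finrank F K ≤ n →
    Odd (Module.finrank F K) → ∀ a b : K, b ^ 2 ≠ aeval a P

/-- The properties of `y ^ 2 = P(x)`, `P` of degree `2 g + 1`: `P` is irreducible, `J(F) = 0`, the 2-primary part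
of the Tate-Shafarevich group of `J` over `F` is zero, all points of degree at most `2 g` are pulled back
from the line and none of them except the point at infinity is of odd degree. -/
structure Simple (g : ℕ) (P : F[X]) : Prop where
  irreducible : Irreducible P
  jacobian : Subsingleton (J P F)
  sha : ShaTwoTrivialReal P (𝓞 F)
  small : PulledBack P (2 * g)
  odd : NoOddPoints P (2 * g)

variable (F)

/-- The polynomials `f` of height at most `B` such that the curve `y ^ 2 = f(x)` has these properties. -/
def Good (g B : ℕ) : Set (𝓞 F)[X] :=
  {f ∈ Polys F g B | Simple g (f.map (algebraMap (𝓞 F) F))}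

end defs

/-- For every `g ≥ 1` and every number field `F` there is a positive constant `c` such that for all large
`B` at least `c` times the number of all the `f` of height at most `B` have the following properties: `f` is
irreducible, the Jacobian `J` of `y ^ 2 = f(x)` has `J(F) = 0` and no 2-primary part of the Tate-Shafarevich
group, all points of the curve of degree at most `2 g` over `F` are pulled back from the line, and none of them
except the point at infinity has odd degree. -/
theorem result (g : ℕ) (hg : 1 ≤ g) (F : Type) [Field F] [NumberField F] :
    (∀ B : ℕ, (Polys F g B).Finite) ∧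
    ∃ c : ℝ, 0 < c ∧ ∀ᶠ B : ℕ in atTop, 0 < (Polys F g B).ncard ∧
      c * ((Polys F g B).ncard : ℝ) ≤ ((Good F g B).ncard : ℝ) := by
  have heq : ∀ B, Polys F g B = {f : (𝓞 F)[X] | Pool.Agent.N783.PF.Ht g B f} := by
    intro B
    ext f
    exact ⟨fun h => ⟨h.monic, h.degree, h.trace, fun j hj σ => h.height j hj σ⟩,
      fun h => ⟨h.mon, h.deg, h.tr, fun j hj σ => h.ht j hj σ⟩⟩
  obtain ⟨f₁, v, ϖ, hv1, hv2, hv3, hv4, c, hc, B₀, hB₀⟩ := Pool.Agent.H905.OP.mainC g F hg
  have hfin : ∀ B : ℕ, (Polys F g B).Finite := by
    intro B
    have h1 := (hB₀ (max B B₀) (le_max_right _ _)).1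
    rw [← heq] at h1
    refine h1.subset fun f hf => ⟨hf.monic, hf.degree, hf.trace, fun j hj σ => ?_⟩
    refine (hf.height j hj σ).trans ?_
    exact pow_le_pow_left₀ (Nat.cast_nonneg _) (by exact_mod_cast le_max_left B B₀) _
  refine ⟨hfin, c, hc, ?_⟩
  filter_upwards [eventually_ge_atTop B₀] with B hB
  obtain ⟨hHt, hle⟩ := hB₀ B hB
  have hsub : {f : (𝓞 F)[X] | Pool.Agent.N783.PF.Ht g B f ∧
      Irreducible (Pool.Agent.N783.PF.fF f) ∧ Pool.Agent.N783.PF.SelZero f ∧
      Pool.Agent.N783.PF.Min g f ∧ ∀ j, (4 : 𝓞 F) ∣ f.coeff j - f₁.coeff j} ⊆ Good F g B := by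
    rintro f ⟨h1, h3, h4, -, h5⟩
    obtain ⟨h6, h7⟩ :=
      Pool.Agent.N783.PF.jac h1.mon (by rw [h1.deg]; exact odd_two_mul_add_one g) h3 h4
    have hHF : Pool.Agent.Y723.HJ.HF (f.map (algebraMap (𝓞 F) F)) :=
      { monic := h1.mon.map _
        odd := by rw [h1.mon.natDegree_map, h1.deg]; exact odd_two_mul_add_one g
        sep := h3.separable
        two := two_ne_zero }
    have hreg : Pool.Agent.H905.OP.RegV v.asIdeal ϖ f := by
      refine hv4.congr fun j => ?_
      obtain ⟨m, hm⟩ := h5 j
      rw [hm]
      refine Ideal.mul_mem_right _ _ ?_
      have h8 := Ideal.mul_mem_mul hv3 hv3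
      rw [← pow_two] at h8
      norm_num at h8
      exact h8
    have hcl := Pool.Agent.H905.OP.triv_F F v hv1 hv2 hv3 h1.mon h1.deg hreg hHF h6
    have hd : (f.map (algebraMap (𝓞 F) F)).natDegree = 2 * g + 1 := by
      rw [h1.mon.natDegree_map, h1.deg]
    exact ⟨⟨h1.mon, h1.deg, h1.tr, fun j hj σ => h1.ht j hj σ⟩, h3,
      Pool.Agent.H905.OP.jac_one hcl, h7,
      fun K _ _ _ hK a b hab => Pool.Agent.H905.OP.low hd hcl hK hab,
      fun K _ _ _ hK ho a b => Pool.Agent.H905.OP.low_odd hd hcl hK ho a b⟩
  have hfin2 : (Good F g B).Finite := (hfin B).subset fun f hf => hf.1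
  have h1 := Set.ncard_le_ncard hsub hfin2
  refine ⟨?_, ?_⟩
  · rw [Set.ncard_pos (hfin B)]
    refine ⟨X ^ (2 * g + 1), monic_X_pow _, natDegree_X_pow _, ?_, fun j hj σ => ?_⟩
    · rw [coeff_X_pow, if_neg (by omega)]
    · rw [coeff_X_pow, if_neg (by omega)]
      have e0 : ((0 : 𝓞 F) : F) = 0 := rfl
      rw [e0, map_zero, norm_zero]
      positivity
  · rw [heq]
    exact hle.trans (by exact_mod_cast h1)

end Pool.Agent.Results.MP_9b9442_nt.SmallDegreePoints
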